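import Pool.Agent.H25.TRI.Targets

/-! C_LIM: passage to the limit in a trilinear integral. -/

set_option autoImplicit false

namespace Pool.Agent.H51.TRI

open MeasureTheory Metric Set Filter Topology Pool.Agent.H87.SN Pool.Agent.H25.TRI
open scoped ContDiff RealInnerProductSpace ENNReal

variable {X : Type} [MeasurableSpace X] {μ : Measure X}

/-- Hölder -/
theorem hol {u v w : X → ℝ} {K : ℝ} (hu : AEStronglyMeasurable u μ) (hK : ∀ᵐ x ∂μ, |u x| ≤ K)
    (hv : MemLp v 2 μ) (hw : MemLp w 2 μ) : Integrable (fun x => u x * (v x * w x)) μ ∧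
    ‖∫ x, u x * (v x * w x) ∂μ‖ₑ ≤ ENNReal.ofReal K * (eLpNorm v 2 μ * eLpNorm w 2 μ) := by
  have h1 : Integrable (fun x => v x * w x) μ := hv.integrable_mul hw
  refine ⟨h1.bdd_mul (c := K) hu (hK.mono fun x hx => hx), ?_⟩
  have h2 : eLpNorm (fun x => v x * w x) 1 μ ≤ eLpNorm v 2 μ * eLpNorm w 2 μ := by
    have h3 := eLpNorm_smul_le_mul_eLpNorm (p := 2) (q := 2) (r := 1) hw.1 hv.1
    exact h3
  calc ‖∫ x, u x * (v x * w x) ∂μ‖ₑ ≤ ∫⁻ x, ‖u x * (v x * w x)‖ₑ ∂μ :=
        enorm_integral_le_lintegral_enorm _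
    _ ≤ ∫⁻ x, ENNReal.ofReal K * ‖v x * w x‖ₑ ∂μ := by
        refine lintegral_mono_ae (hK.mono fun x hx => ?_)
        rw [enorm_mul]
        refine mul_le_mul' ?_ le_rfl
        rw [← ofReal_norm]
        exact ENNReal.ofReal_le_ofReal hx
    _ = ENNReal.ofReal K * eLpNorm (fun x => v x * w x) 1 μ := by
        rw [lintegral_const_mul' _ _ ENNReal.ofReal_ne_top, eLpNorm_one_eq_lintegral_enorm]
    _ ≤ _ := by gcongr

theorem norm_lim {G : X → ℝ} {Gk : ℕ → X → ℝ} (hGk : ∀ k, MemLp (Gk k) 2 μ) (hG : MemLp G 2 μ)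
    (h : Tendsto (fun k => eLpNorm (fun x => Gk k x - G x) 2 μ) atTop (𝓝 0)) :
    Tendsto (fun k => eLpNorm (Gk k) 2 μ) atTop (𝓝 (eLpNorm G 2 μ)) := by
  have h1 : ∀ k, eLpNorm (Gk k) 2 μ ≤ eLpNorm G 2 μ + eLpNorm (fun x => Gk k x - G x) 2 μ := by
    intro k
    have e1 : Gk k = G + fun x => Gk k x - G x := by
      funext x
      simp
    calc eLpNorm (Gk k) 2 μ = eLpNorm (G + fun x => Gk k x - G x) 2 μ := by rw [← e1]
      _ ≤ _ := eLpNorm_add_le hG.1 ((hGk k).1.sub hG.1) (by norm_num)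
  have h2 : ∀ k, eLpNorm G 2 μ - eLpNorm (fun x => Gk k x - G x) 2 μ ≤ eLpNorm (Gk k) 2 μ := by
    intro k
    rw [tsub_le_iff_right]
    have e1 : G = Gk k - fun x => Gk k x - G x := by
      funext x
      simp
    calc eLpNorm G 2 μ = eLpNorm (Gk k - fun x => Gk k x - G x) 2 μ := by rw [← e1]
      _ ≤ _ := eLpNorm_sub_le (hGk k).1 ((hGk k).1.sub hG.1) (by norm_num)
  have h3 : Tendsto (fun k => eLpNorm G 2 μ + eLpNorm (fun x => Gk k x - G x) 2 μ) atTop
      (𝓝 (eLpNorm G 2 μ)) := by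
    have := (tendsto_const_nhds (x := eLpNorm G 2 μ)).add h
    rwa [add_zero] at this
  have h4 : Tendsto (fun k => eLpNorm G 2 μ - eLpNorm (fun x => Gk k x - G x) 2 μ) atTop
      (𝓝 (eLpNorm G 2 μ)) := by
    have := ENNReal.Tendsto.sub (tendsto_const_nhds (x := eLpNorm G 2 μ)) h
      (Or.inl hG.eLpNorm_ne_top)
    rwa [tsub_zero] at this
  exact tendsto_of_tendsto_of_tendsto_of_le_of_le h4 h3 h2 h1

theorem sqrt_eq {f : X → ℝ} (hf : MemLp f 2 μ) :
    Real.sqrt (∫ x, f x ^ 2 ∂μ) = (eLpNorm f 2 μ).toReal := by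
  rw [hf.eLpNorm_eq_integral_rpow_norm (by norm_num) (by norm_num),
    ENNReal.toReal_ofReal (by positivity), Real.sqrt_eq_rpow]
  norm_num

theorem pf_LIM : T_LIM := by
  intro n bk Gk Dk b G D K hbk hbkK hb hbK hlim hGk hDk hG hD hGl hDl
  refine ⟨?_, ?_⟩
  · have hI1 := fun k => hol (hbk k) (hbkK k) ((hGk k).sub hG) (hDk k)
    have hI2 := fun k => hol (hbk k) (hbkK k) hG ((hDk k).sub hD)
    have hI3 := fun k => hol (hbk k) (hbkK k) hG hD
    have hsplit : ∀ k, ∫ x, bk k x * (Gk k x * Dk k x) =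
        (∫ x, bk k x * ((Gk k - G) x * Dk k x)) + (∫ x, bk k x * (G x * (Dk k - D) x)) +
          ∫ x, bk k x * (G x * D x) := by
      intro k
      have h12 := integral_add (hI1 k).1 (hI2 k).1
      have h123 := integral_add ((hI1 k).1.add (hI2 k).1) (hI3 k).1
      rw [← h12]
      refine Eq.trans ?_ h123
      congr 1
      funext x
      simp only [Pi.sub_apply, Pi.add_apply]
      ring
    simp only [hsplit]
    have hDn := norm_lim hDk hD hDl
    have z : ∀ (f : ℕ → ℝ) (g : ℕ → ℝ≥0∞), (∀ k, ‖f k‖ₑ ≤ g k) → Tendsto g atTop (𝓝 0) →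
        Tendsto f atTop (𝓝 0) := by
      intro f g hfg hg
      rw [tendsto_zero_iff_enorm_tendsto_zero]
      exact tendsto_of_tendsto_of_tendsto_of_le_of_le tendsto_const_nhds hg
        (fun _ => zero_le) hfg
    have t1 : Tendsto (fun k => ∫ x, bk k x * ((Gk k - G) x * Dk k x)) atTop (𝓝 0) := by
      refine z _ _ (fun k => (hI1 k).2) ?_
      have h1 : Tendsto (fun k => eLpNorm (Gk k - G) 2 volume * eLpNorm (Dk k) 2 volume) atTop
          (𝓝 (0 * eLpNorm D 2 volume)) :=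
        ENNReal.Tendsto.mul hGl (Or.inr hD.eLpNorm_ne_top) hDn (Or.inr ENNReal.zero_ne_top)
      have h2 := ENNReal.Tendsto.const_mul h1 (Or.inr (ENNReal.ofReal_ne_top (r := K)))
      rw [zero_mul, mul_zero] at h2
      exact h2
    have t2 : Tendsto (fun k => ∫ x, bk k x * (G x * (Dk k - D) x)) atTop (𝓝 0) := by
      refine z _ _ (fun k => (hI2 k).2) ?_
      have h1 : Tendsto (fun k => eLpNorm G 2 volume * eLpNorm (Dk k - D) 2 volume) atTop
          (𝓝 (eLpNorm G 2 volume * 0)) :=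
        ENNReal.Tendsto.const_mul hDl (Or.inr hG.eLpNorm_ne_top)
      have h2 := ENNReal.Tendsto.const_mul h1 (Or.inr (ENNReal.ofReal_ne_top (r := K)))
      rw [mul_zero, mul_zero] at h2
      exact h2
    have t3 : Tendsto (fun k => ∫ x, bk k x * (G x * D x)) atTop (𝓝 (∫ x, b x * (G x * D x))) := by
      refine tendsto_integral_of_dominated_convergence (fun x => K * |G x * D x|)
        (fun k => (hI3 k).1.1) ?_ ?_ ?_
      · exact (Integrable.abs (hG.integrable_mul hD)).const_mul K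
      · intro k
        filter_upwards [hbkK k] with x hx
        rw [norm_mul, Real.norm_eq_abs, Real.norm_eq_abs]
        exact mul_le_mul_of_nonneg_right hx (abs_nonneg _)
      · filter_upwards [hlim] with x hx
        exact hx.mul_const _
    have t4 := (t1.add t2).add t3
    rw [add_zero, zero_add] at t4
    exact t4
  · simp only [sqrt_eq (hGk _), sqrt_eq hG]
    exact (ENNReal.tendsto_toReal hG.eLpNorm_ne_top).comp (norm_lim hGk hG hGl)

end Pool.Agent.H51.TRI
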